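import Mathlib
import Pool.Agent.H964.LF.Stm

set_option autoImplicit false

namespace Pool.Agent.H921.LF

open Pool.Agent.H964.LF MeasureTheory
open scoped ENNReal

noncomputable section

theorem lip_nat {d n : ℕ} {ψ : Tor d n → ℝ} (hψ : Lip ψ) (i : Fin d) (m : ℕ) :
    ∀ c : Tor d n, |ψ (c + Pi.single i ((m : ℕ) : ZMod (2 * n + 2))) - ψ c| ≤ (m : ℝ) := by
  induction m with
  | zero => intro c; simp
  | succ m ih =>
    intro c
    have h1 := ih c
    have h2 := hψ (c + Pi.single i ((m : ℕ) : ZMod (2 * n + 2))) i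
    have e : c + Pi.single i (((m + 1 : ℕ)) : ZMod (2 * n + 2)) =
        c + Pi.single i ((m : ℕ) : ZMod (2 * n + 2)) + Pi.single i 1 := by
      rw [add_assoc, ← Pi.single_add]
      push_cast
      rfl
    rw [e]
    push_cast
    rw [abs_le] at h1 h2 ⊢
    constructor <;> linarith [h1.1, h1.2, h2.1, h2.2]

theorem lip_int {d n : ℕ} {ψ : Tor d n → ℝ} (hψ : Lip ψ) (i : Fin d) (m : ℤ) (c : Tor d n) :
    |ψ (c + Pi.single i ((m : ℤ) : ZMod (2 * n + 2))) - ψ c| ≤ |(m : ℝ)| := by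
  obtain ⟨k, rfl | rfl⟩ := m.eq_nat_or_neg
  · have h := lip_nat hψ i k c
    push_cast
    rw [Nat.abs_cast]
    exact h
  · have h := lip_nat hψ i k (c + Pi.single i (-((k : ℕ) : ZMod (2 * n + 2))))
    have e : c + Pi.single i (-((k : ℕ) : ZMod (2 * n + 2))) +
        Pi.single i ((k : ℕ) : ZMod (2 * n + 2)) = c := by
      rw [add_assoc, ← Pi.single_add, neg_add_cancel, Pi.single_zero, add_zero]
    rw [e] at h
    push_cast
    rw [abs_neg, Nat.abs_cast, abs_sub_comm]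
    exact h

theorem lip_fin {d n : ℕ} {ψ : Tor d n → ℝ} (hψ : Lip ψ) (z : Fin d → ℤ) (s : Finset (Fin d)) :
    ∀ c : Tor d n, |ψ (c + ∑ i ∈ s, Pi.single i ((z i : ℤ) : ZMod (2 * n + 2))) - ψ c| ≤
      ∑ i ∈ s, |(z i : ℝ)| := by
  classical
  induction s using Finset.induction_on with
  | empty => intro c; simp
  | insert a s ha ih =>
    intro c
    rw [Finset.sum_insert ha, Finset.sum_insert ha, ← add_assoc]
    have h1 := ih (c + Pi.single a ((z a : ℤ) : ZMod (2 * n + 2)))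
    have h2 := lip_int hψ a (z a) c
    rw [abs_le] at h1 h2 ⊢
    constructor <;> linarith [h1.1, h1.2, h2.1, h2.2]

theorem zt_sum {d : ℕ} (n : ℕ) (z : Fin d → ℤ) :
    (zt n z : Tor d n) = ∑ i, Pi.single i ((z i : ℤ) : ZMod (2 * n + 2)) := by
  have h := Finset.univ_sum_single (fun i => ((z i : ℤ) : ZMod (2 * n + 2)))
  rw [h]
  rfl

theorem lip_zt {d n : ℕ} {ψ : Tor d n → ℝ} (hψ : Lip ψ) (z : Fin d → ℤ) (c : Tor d n) :
    |ψ (c + zt n z) - ψ c| ≤ ∑ i, |(z i : ℝ)| := by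
  rw [zt_sum]
  exact lip_fin hψ z Finset.univ c

theorem lip_bx {d n : ℕ} {ψ : Tor d n → ℝ} (hψ : Lip ψ) (z : Fin d → ℤ) (c : Tor d n) (r : ℕ)
    (hz : bx r z) : |ψ (c + zt n z) - ψ c| ≤ d * r := by
  refine (lip_zt hψ z c).trans ?_
  calc ∑ i, |(z i : ℝ)| ≤ ∑ _i : Fin d, (r : ℝ) := by
        refine Finset.sum_le_sum fun i _ => ?_
        have := hz i
        have h2 : ((|z i| : ℤ) : ℝ) ≤ ((r : ℤ) : ℝ) := by exact_mod_cast this
        rw [Int.cast_abs] at h2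
        exact_mod_cast h2
    _ = d * r := by simp

theorem lip_all {d n : ℕ} {ψ : Tor d n → ℝ} (hψ : Lip ψ) (v : Tor d n) :
    |ψ v - ψ 0| ≤ d * (n + 1) := by
  have h := lip_bx hψ (fun i => (v i).valMinAbs) 0 (n + 1) (by
    intro j
    have h1 := ZMod.natAbs_valMinAbs_le (v j)
    have h2 : (2 * n + 2) / 2 = n + 1 := by omega
    rw [h2] at h1
    show |(v j).valMinAbs| ≤ ((n + 1 : ℕ) : ℤ)
    rw [Int.abs_eq_natAbs]
    exact_mod_cast h1)
  have e : (0 : Tor d n) + zt n (fun i => (v i).valMinAbs) = v := by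
    rw [zero_add]
    funext i
    show (((v i).valMinAbs : ℤ) : ZMod (2 * n + 2)) = v i
    exact ZMod.coe_valMinAbs (v i)
  rw [e] at h
  push_cast at h
  exact h

theorem t_TAIL : S_TA1 → S_CHART → S_PIN → S_TAIL := by
  intro hTA hCH hPIN d hd
  obtain ⟨K0, R, c, C, h4, h16, hc, hC, hT⟩ := hTA d hd
  obtain ⟨n0, hn0⟩ := hCH d K0 R (by omega) h4 h16
  have hdR : (3 : ℝ) ≤ d := by exact_mod_cast hd
  have hK0R : (16 : ℝ) ≤ K0 := by exact_mod_cast h16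
  refine ⟨c, max C (16 * d * K0), n0, hc, lt_max_of_lt_left hC, ?_⟩
  intro n hn v t ht
  have htC : C ≤ t := le_trans (le_max_left _ _) ht
  have ht16 : 16 * (d : ℝ) * K0 ≤ t := le_trans (le_max_right _ _) ht
  obtain ⟨K, J, τ, k0, k1, z0, z1, hK1, hK2, hconf, hJ, hk0, hk1, hz0, hz1, e0, e1⟩ := hn0 n hn v
  obtain ⟨hP1, hP2⟩ := hPIN d n
  have hE : MeasurableSet {ψ : Tor d n → ℝ | t ≤ ψ v - ψ 0} :=
    measurableSet_le measurable_const ((measurable_pi_apply v).sub (measurable_pi_apply 0))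
  have hinv : ∀ ψ ∈ {ψ : Tor d n → ℝ | t ≤ ψ v - ψ 0}, ∀ c : ℝ,
      (fun v => ψ v + c) ∈ {ψ : Tor d n → ℝ | t ≤ ψ v - ψ 0} := by
    intro ψ hψ c
    have h0 : t ≤ ψ v - ψ 0 := hψ
    show t ≤ (ψ v + c) - (ψ 0 + c)
    linarith
  have hsw := (hP1 _ hE hinv).1 0 (ctr τ K k0)
  have hsu := (hP1 Set.univ MeasurableSet.univ (fun _ _ _ => Set.mem_univ _)).1 0 (ctr τ K k0)
  rcases le_or_gt t (d * (n + 1)) with hcase | hcase
  · -- main case
    have hpos : (0 : ℝ) < 16 * d * K0 := by positivity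
    have hs1 : 1 ≤ t / (16 * d * K0) := by
      rw [le_div_iff₀ hpos]
      linarith
    obtain ⟨j0, hj1, hj2⟩ := exists_nat_pow_near hs1 (one_lt_two : (1 : ℝ) < 2)
    have hj0J : j0 ≤ J := by
      have hJR : (2 : ℝ) * n + 2 ≤ 4 * K0 * 2 ^ J := by exact_mod_cast hJ
      have hub : t / (16 * d * K0) ≤ 2 ^ J := by
        rw [div_le_iff₀ hpos]
        have hd0 : (0 : ℝ) ≤ d := by linarith
        have h1 : (d : ℝ) * (n + 1) ≤ d * (2 * K0 * 2 ^ J) := by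
          refine mul_le_mul_of_nonneg_left ?_ hd0
          linarith
        have h2 : (0 : ℝ) ≤ d * K0 * 2 ^ J := by positivity
        nlinarith
      have h3 : (2 : ℝ) ^ j0 ≤ 2 ^ J := hj1.trans hub
      exact (pow_le_pow_iff_right₀ (one_lt_two : (1 : ℝ) < 2)).1 h3
    have hmain := hT n K J j0 τ k0 k1 t hconf hK1 hK2 hk0 hk1 hj0J htC hj1 hj2.le
    rw [hsw, hsu]
    refine le_trans ?_ hmain
    refine measure_mono ?_
    rintro ψ ⟨hL, hp, hψ⟩
    refine ⟨hL, hp, ?_⟩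
    have hψ' : t ≤ ψ v - ψ 0 := hψ
    show t - 5 * d * K0 ≤ ψ (ctr τ K k1)
    have a0 := lip_bx hL z0 (ctr τ K k0) (2 * K0) hz0
    have a1 := lip_bx hL z1 (ctr τ K k1) (2 * K0) hz1
    rw [e0] at a0
    rw [e1] at a1
    push_cast at a0 a1
    rw [abs_le] at a0 a1 hp
    have hdK : (1 / 2 : ℝ) ≤ d * K0 := by nlinarith
    linarith [a0.1, a0.2, a1.1, a1.2, hp.1, hp.2]
  · -- empty case
    have hz : vl 0 {ψ : Tor d n → ℝ | t ≤ ψ v - ψ 0} = 0 := by
      have he : {ψ : Tor d n → ℝ | Lip ψ ∧ |ψ 0| ≤ 1 / 2 ∧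
          ψ ∈ {ψ : Tor d n → ℝ | t ≤ ψ v - ψ 0}} = ∅ := by
        refine Set.eq_empty_of_forall_notMem ?_
        rintro ψ ⟨hL, _, hψ⟩
        have hψ' : t ≤ ψ v - ψ 0 := hψ
        have := lip_all hL v
        rw [abs_le] at this
        linarith [this.2]
      show volume {ψ : Tor d n → ℝ | Lip ψ ∧ |ψ 0| ≤ 1 / 2 ∧
          ψ ∈ {ψ : Tor d n → ℝ | t ≤ ψ v - ψ 0}} = 0
      rw [he]
      exact measure_empty
    rw [hz]
    exact zero_le

end

end Pool.Agent.H921.LF
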